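import Pool.Agent.H933.EP.Stm2

set_option autoImplicit false

open MeasureTheory Metric Set
open scoped Real NNReal ENNReal

namespace Pool.Agent.H16.EP

open Pool.Agent.H933.EP

theorem circ (n : ℕ) (hn : 0 < n) (t : UnitAddCircle) :
    ∃ i ∈ Finset.range n, dist t (((i : ℝ) / n : ℝ) : UnitAddCircle) ≤ 1 / n := by
  have h1 : t ∈ ((fun x : ℝ => (x : UnitAddCircle)) '' Ico (0 : ℝ) (0 + 1)) := by
    have := AddCircle.coe_image_Ico_eq (1 : ℝ) (0 : ℝ)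
    rw [this]
    trivial
  obtain ⟨x, hx, rfl⟩ := h1
  have hn' : (0 : ℝ) < n := by exact_mod_cast hn
  have hx0 : 0 ≤ x := hx.1
  have hx1 : x < 1 := by simpa using hx.2
  have h0 : 0 ≤ x * n := mul_nonneg hx0 hn'.le
  refine ⟨⌊x * n⌋₊, ?_, ?_⟩
  · rw [Finset.mem_range, Nat.floor_lt h0]
    nlinarith
  · have h2 : (⌊x * n⌋₊ : ℝ) ≤ x * n := Nat.floor_le h0
    have h3 : x * n < ⌊x * n⌋₊ + 1 := Nat.lt_floor_add_one _
    show dist (x : UnitAddCircle) _ ≤ 1 / (n : ℝ)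
    rw [dist_eq_norm, ← AddCircle.coe_sub, UnitAddCircle.norm_eq]
    refine (round_le _ 0).trans ?_
    rw [Int.cast_zero, sub_zero, abs_of_nonneg]
    · rw [sub_le_iff_le_add, ← add_div, le_div_iff₀ hn']
      linarith
    · rw [sub_nonneg, div_le_iff₀ hn']
      exact h2

theorem p_hthin : P_hthin := by
  intro φ L α hα hφ
  have hα0 : (0 : ℝ) < α := by linarith
  refine ⟨2 * π * ((L : ℝ) + 2) ^ 2, 2 - 1 / (α : ℝ), ?_, ?_⟩
  · rw [sub_pos, div_lt_iff₀ hα0]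
    linarith
  intro δ hδ hδ1
  set a : ℝ := δ ^ (-(1 / (α : ℝ))) with ha
  have ha1 : 1 ≤ a := Real.one_le_rpow_of_pos_of_le_one_of_nonpos hδ hδ1
    (by rw [neg_nonpos]; positivity)
  have ha0 : 0 < a := by linarith
  set n : ℕ := ⌈a⌉₊ with hn
  have hna : a ≤ n := Nat.le_ceil a
  have hn0 : 0 < n := Nat.ceil_pos.mpr ha0
  have hn' : (0 : ℝ) < n := by exact_mod_cast hn0
  have hn2 : (n : ℝ) ≤ 2 * a := by
    have := Nat.ceil_lt_add_one ha0.le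
    linarith
  have hpow : (1 / (n : ℝ)) ^ (α : ℝ) ≤ δ := by
    have h1 : 1 / (n : ℝ) ≤ δ ^ (1 / (α : ℝ)) := by
      rw [div_le_iff₀ hn']
      have h2 : δ ^ (1 / (α : ℝ)) * a = 1 := by
        rw [ha, ← Real.rpow_add hδ, add_neg_cancel, Real.rpow_zero]
      have h3 : 0 < δ ^ (1 / (α : ℝ)) := Real.rpow_pos_of_pos hδ _
      nlinarith
    calc (1 / (n : ℝ)) ^ (α : ℝ) ≤ (δ ^ (1 / (α : ℝ))) ^ (α : ℝ) :=
          Real.rpow_le_rpow (by positivity) h1 hα0.le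
      _ = δ := by
          rw [← Real.rpow_mul hδ.le, one_div, inv_mul_cancel₀ hα0.ne', Real.rpow_one]
  have hsub : {z : ℂ | infDist z (Set.range φ) ≤ δ} ⊆
      ⋃ i ∈ Finset.range n, closedBall (φ (((i : ℝ) / n : ℝ) : UnitAddCircle))
        (((L : ℝ) + 2) * δ) := by
    intro z hz
    have hz2 : infDist z (Set.range φ) < 2 * δ := lt_of_le_of_lt hz (by linarith)
    obtain ⟨y, hy, hzy⟩ := (infDist_lt_iff (Set.range_nonempty φ)).mp hz2
    obtain ⟨t, rfl⟩ := hy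
    obtain ⟨i, hi, hti⟩ := circ n hn0 t
    rw [mem_iUnion₂]
    refine ⟨i, hi, ?_⟩
    rw [mem_closedBall]
    have h1 := hφ.dist_le t (((i : ℝ) / n : ℝ) : UnitAddCircle)
    have h2 : dist t (((i : ℝ) / n : ℝ) : UnitAddCircle) ^ (α : ℝ) ≤ δ :=
      (Real.rpow_le_rpow dist_nonneg hti hα0.le).trans hpow
    have h3 : (L : ℝ) * dist t (((i : ℝ) / n : ℝ) : UnitAddCircle) ^ (α : ℝ) ≤ L * δ :=
      mul_le_mul_of_nonneg_left h2 L.coe_nonneg
    have h4 := dist_triangle z (φ t) (φ (((i : ℝ) / n : ℝ) : UnitAddCircle))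
    linarith
  refine (measure_mono hsub).trans ((measure_biUnion_finset_le _ _).trans ?_)
  simp only [Complex.volume_closedBall]
  rw [Finset.sum_const, Finset.card_range, nsmul_eq_mul]
  have hr : 0 ≤ ((L : ℝ) + 2) * δ := by positivity
  have h1 : (n : ℝ≥0∞) * (ENNReal.ofReal (((L : ℝ) + 2) * δ) ^ 2 * (NNReal.pi : ℝ≥0∞)) =
      ENNReal.ofReal (n * ((((L : ℝ) + 2) * δ) ^ 2 * π)) := by
    rw [ENNReal.ofReal_mul hn'.le, ENNReal.ofReal_natCast,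
      ENNReal.ofReal_mul (p := (((L : ℝ) + 2) * δ) ^ 2) (by positivity),
      ENNReal.ofReal_pow hr, ← NNReal.coe_real_pi, ENNReal.ofReal_coe_nnreal]
  rw [h1]
  refine ENNReal.ofReal_le_ofReal ?_
  have h2 : δ ^ (2 - 1 / (α : ℝ)) = δ ^ 2 * a := by
    rw [ha, sub_eq_add_neg, Real.rpow_add hδ, Real.rpow_two]
  rw [h2]
  have h3 : 0 ≤ ((((L : ℝ) + 2) * δ) ^ 2 * π) := by positivity
  calc (n : ℝ) * ((((L : ℝ) + 2) * δ) ^ 2 * π) ≤ (2 * a) * ((((L : ℝ) + 2) * δ) ^ 2 * π) :=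
        mul_le_mul_of_nonneg_right hn2 h3
    _ = 2 * π * ((L : ℝ) + 2) ^ 2 * (δ ^ 2 * a) := by ring

end Pool.Agent.H16.EP
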